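import Pool.Agent.helper53.ORT.Spec

/-!
# Project ort (MP_561ff4_al), row SNP: discriminants of involutions in `Om B`
-/

set_option autoImplicit false

namespace Pool.Agent.ORT

open Module Pool.Agent.GS

open scoped BigOperators

/-- A homomorphism from `O(B)` to a commutative group is trivial on `Om B`. -/
theorem SNP_triv {F V : Type} [Field F] [AddCommGroup V] [Module F V]
    {B : LinearMap.BilinForm F V} {M : Type} [CommGroup M] (φ : SpG B →* M) (g : SpG B)
    (hg : (g : Equiv.Perm V) ∈ Om B) : φ g = 1 := by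
  have h : Om B ≤ (φ.ker).map (SpG B).subtype := by
    unfold Om
    rw [Subgroup.commutator_le]
    intro g₁ h₁ g₂ h₂
    refine ⟨(⟨g₁, h₁⟩ : SpG B) * ⟨g₂, h₂⟩ * (⟨g₁, h₁⟩ : SpG B)⁻¹ * (⟨g₂, h₂⟩ : SpG B)⁻¹, ?_, ?_⟩
    · show φ _ = 1
      rw [map_mul, map_mul, map_mul, map_inv, map_inv, mul_comm (φ ⟨g₁, h₁⟩), mul_inv_cancel_right,
        mul_inv_cancel]
    · rfl
  obtain ⟨g', hg', he⟩ := h hg
  have : g' = g := Subtype.ext he
  rw [← this]
  exact hg'

/-- `fl B a` is the product of the reflections. -/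
theorem SNP_prod {F V : Type} [Field F] [AddCommGroup V] [Module F V]
    {B : LinearMap.BilinForm F V} (hB : Sym B) {M : Type} [CommGroup M] (φ : SpG B →* M) :
    ∀ (k : ℕ) (a : Fin k → V), Og B a →
      φ ⟨fl B a, fl_mem hB a⟩ = ∏ i, φ ⟨rf B (a i), rf_mem hB (a i)⟩ := by
  intro k
  induction k with
  | zero =>
    intro a ha
    rw [Fin.prod_univ_zero]
    have e : (⟨fl B a, fl_mem hB a⟩ : SpG B) = 1 := by
      apply Subtype.ext
      ext x
      rw [fl_apply ha]
      simp
    rw [e, map_one]
  | succ k ih =>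
    intro a ha
    have e1 : fl B a = fl B (fun i : Fin k => a (Fin.castSucc i)) * rf B (a (Fin.last k)) := by
      have e0 : (fun i => a (finSumFinEquiv (m := k) (n := 1) i)) =
          Sum.elim (fun i : Fin k => a (Fin.castSucc i)) (fun _ : Fin 1 => a (Fin.last k)) := by
        funext i
        rcases i with i | i
        · rw [finSumFinEquiv_apply_left]
          rfl
        · rw [finSumFinEquiv_apply_right]
          have : i = 0 := Subsingleton.elim _ _
          subst this
          rfl
      have h0 := ha.comp (finSumFinEquiv (m := k) (n := 1)).injective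
      rw [← fl_equiv ha (finSumFinEquiv (m := k) (n := 1))]
      rw [e0] at h0 ⊢
      have h1 : fl B (fun _ : Fin 1 => a (Fin.last k)) = rf B (a (Fin.last k)) := by
        ext x
        rw [fl_apply h0.inr, rf_apply (ha.n _), Fin.sum_univ_one]
      rw [fl_sum h0, h1]
    have e2 : (⟨fl B a, fl_mem hB a⟩ : SpG B) =
        ⟨fl B (fun i : Fin k => a (Fin.castSucc i)), fl_mem hB _⟩ *
          ⟨rf B (a (Fin.last k)), rf_mem hB _⟩ := Subtype.ext e1
    rw [e2, map_mul, Fin.prod_univ_castSucc, ih _ (ha.comp (Fin.castSucc_injective k))]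

open Classical in
/-- The sign of a reflection in terms of the quadratic character. -/
theorem SNP_chi (sga : SGA_stmt) {F V : Type} [Field F] [Fintype F] [AddCommGroup V]
    [Module F V] [FiniteDimensional F V] (B : LinearMap.BilinForm F V) (h2 : ringChar F ≠ 2)
    (hB : Sym B) (c : F) (a : V) (hc : c ≠ 0) (ha : B a a ≠ 0)
    [Fintype {v : V // B v v = c}] :
    ((Equiv.Perm.sign (actX B c ⟨rf B a, rf_mem hB a⟩) : ℤˣ) : ℤ) =
      - quadraticChar F (c * B a a) := by
  have h := sga B h2 hB c a hc ha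
  by_cases hs : IsSquare (c * B a a)
  · rw [h.1 hs, (quadraticChar_one_iff_isSquare (mul_ne_zero hc ha)).2 hs]
    rfl
  · rw [h.2 hs, quadraticChar_neg_one_iff_not_isSquare.2 hs]
    rfl

open Classical in
theorem SNP (sga : SGA_stmt) : SNP_stmt := by
  intro F V _ _ _ _ _ B h2 hB k a ha hfl
  have : Fintype F := Fintype.ofFinite F
  have : Finite V := Module.finite_of_finite F
  have hft : ∀ c : F, Fintype {v : V // B v v = c} := fun c => Fintype.ofFinite _
  have key : ∀ c : F, c ≠ 0 → ∏ i, (- quadraticChar F (c * B (a i) (a i))) = 1 := by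
    intro c hc
    let φ : SpG B →* ℤˣ := Equiv.Perm.sign.comp (actX B c)
    have h1 : φ ⟨fl B a, fl_mem hB a⟩ = 1 := SNP_triv φ _ hfl
    rw [SNP_prod hB φ k a ha] at h1
    have h3 := congrArg (Units.coeHom ℤ) h1
    rw [map_prod, map_one] at h3
    rw [← h3]
    refine Finset.prod_congr rfl fun i _ => ?_
    exact (SNP_chi sga B h2 hB c (a i) hc (ha.n i)).symm
  obtain ⟨ε, hε⟩ := FiniteField.exists_nonsquare h2
  have hε0 : ε ≠ 0 := by
    rintro rfl
    exact hε (IsSquare.zero)
  have hχ : quadraticChar F ε = -1 := quadraticChar_neg_one_iff_not_isSquare.2 hε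
  have k1 := key ε hε0
  have k2 : ∏ i, quadraticChar F (B (a i) (a i)) = 1 := by
    rw [← k1]
    refine Finset.prod_congr rfl fun i _ => ?_
    rw [map_mul, hχ]
    ring
  have k3 := key 1 one_ne_zero
  have k4 : (-1 : ℤ) ^ k = 1 := by
    have : ∀ i, (- quadraticChar F (1 * B (a i) (a i))) =
        (-1) * quadraticChar F (B (a i) (a i)) := by
      intro i
      rw [one_mul]
      ring
    rw [Finset.prod_congr rfl fun i _ => this i, Finset.prod_mul_distrib, k2, Finset.prod_const,
      Finset.card_univ, Fintype.card_fin, mul_one] at k3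
    exact k3
  refine ⟨?_, ?_⟩
  · by_contra hk
    rw [Nat.not_even_iff_odd] at hk
    rw [hk.neg_one_pow] at k4
    norm_num at k4
  · rw [← map_prod] at k2
    exact (quadraticChar_one_iff_isSquare (Finset.prod_ne_zero_iff.2 fun i _ => ha.n i)).1 k2

end Pool.Agent.ORT
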